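import Pool.Agent.Helper65.EV.Key

set_option autoImplicit false

open MeasureTheory Metric Real Set

/-!
# The variance inequality at every scale, order `h = n + 3`
-/

namespace Pool.Agent.Helper65.EV

open Pool.Agent.Helper65.ET (pt pt_re Dir Adm dc Fr adm_a a_sq a_nonneg
  summable_a Fr_anti Fr_nonneg per_Dir ind ind_nonneg
  ind_le_one ind_zero_or_one summable_exp)
open Pool.Agent.Helper65.EH

/-- the parts -/
structure Parts : Prop where
  pow : S_POW
  dset : S_DSET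
  ener : S_ENER
  mono : S_MONO
  fact : S_FACT

section

variable (hP : Parts) {A : Set ℕ} {h : ℕ} {C : ℝ} (hC1 : 1 ≤ C) (hC : ∀ j, cp (ind A) h j ≤ C)

include hP hC1 hC

lemma cp_nonneg' (j m : ℕ) : 0 ≤ cp (ind A) j m := (hP.pow _ (ind_zero_or_one A) j).1 m

lemma summable_sq {j : ℕ} (hj : j ≤ h) {t : ℝ} (ht : 0 < t) :
    Summable (fun m : ℕ => cp (ind A) j m ^ 2 * exp (-(t * m))) :=
  summable_R_sq (cp_nonneg' hP hC1 hC j) (hP.mono A h C hC1 hC j hj) ht

lemma En_nonneg (j : ℕ) (t : ℝ) : 0 ≤ En (ind A) j t :=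
  tsum_nonneg fun m => by positivity

/-- product of the generating function and the energy -/
lemma Fr_mul_En {j : ℕ} (hj : j ≤ h) {t : ℝ} (ht : 0 < t) :
    Summable (fun n : ℕ => (∑ p ∈ Finset.HasAntidiagonal.antidiagonal n,
      ind A p.1 * cp (ind A) j p.2 ^ 2) * exp (-(t * n))) ∧
    Fr (ind A) t * En (ind A) j t = ∑' n : ℕ, (∑ p ∈ Finset.HasAntidiagonal.antidiagonal n,
      ind A p.1 * cp (ind A) j p.2 ^ 2) * exp (-(t * n)) := by
  have h1 : Summable (fun n : ℕ => ‖ind A n * exp (-(t * n))‖) :=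
    (summable_a (ind_zero_or_one A) ht).norm
  have h2 : Summable (fun n : ℕ => ‖cp (ind A) j n ^ 2 * exp (-(t * n))‖) :=
    (summable_sq hP hC1 hC hj ht).norm
  have e : ∀ n : ℕ, ∑ p ∈ Finset.HasAntidiagonal.antidiagonal n,
      (ind A p.1 * exp (-(t * p.1))) * (cp (ind A) j p.2 ^ 2 * exp (-(t * p.2))) =
      (∑ p ∈ Finset.HasAntidiagonal.antidiagonal n,
      ind A p.1 * cp (ind A) j p.2 ^ 2) * exp (-(t * n)) := by
    intro n
    rw [Finset.sum_mul]
    refine Finset.sum_congr rfl fun p hp => ?_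
    rw [Finset.HasAntidiagonal.mem_antidiagonal] at hp
    have : exp (-(t * n)) = exp (-(t * p.1)) * exp (-(t * p.2)) := by
      rw [← Real.exp_add, ← hp]; congr 1; push_cast; ring
    rw [this]; ring
  constructor
  · have h3 := (summable_norm_sum_mul_antidiagonal_of_summable_norm h1 h2).of_norm
    refine h3.congr fun n => ?_
    exact e n
  · unfold Fr En
    rw [tsum_mul_tsum_eq_tsum_sum_antidiagonal_of_summable_norm h1 h2]
    exact tsum_congr fun n => e n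

/-- summed energy inequality -/
lemma ener_sum {n : ℕ} (hn : n + 2 ≤ h) {t : ℝ} (ht : 0 < t) :
    ((n : ℝ) + 2) * (Fr (ind A) t * En (ind A) (n + 1) t) ≤
      En (ind A) (n + 2) t + ((n : ℝ) + 2) * C ^ 2 * Fr (ind A) t ^ (n + 1) := by
  obtain ⟨s1, e1⟩ := Fr_mul_En hP hC1 hC (show n + 1 ≤ h by omega) ht
  have s2 := summable_sq hP hC1 hC hn ht
  have s3 := (summable_a (ind_zero_or_one (dset A n)) ht).mul_left (((n : ℝ) + 2) * C ^ 2)
  have h1 := hP.dset A n t ht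
  rw [e1, ← tsum_mul_left]
  calc ∑' m : ℕ, ((n : ℝ) + 2) * ((∑ p ∈ Finset.HasAntidiagonal.antidiagonal m,
      ind A p.1 * cp (ind A) (n + 1) p.2 ^ 2) * exp (-(t * m)))
      ≤ ∑' m : ℕ, (cp (ind A) (n + 2) m ^ 2 * exp (-(t * m)) +
        ((n : ℝ) + 2) * C ^ 2 * (ind (dset A n) m * exp (-(t * m)))) := by
        refine (s1.mul_left _).tsum_le_tsum (fun m => ?_) (s2.add s3)
        have h2 := hP.ener A (n + 1) C (hP.mono A h C hC1 hC (n + 2) hn) m
        rw [show n + 1 - 1 = n by omega] at h2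
        push_cast at h2
        have h3 := exp_pos (-(t * m))
        have h4 := mul_le_mul_of_nonneg_right h2 h3.le
        linarith
    _ = (∑' m : ℕ, cp (ind A) (n + 2) m ^ 2 * exp (-(t * m))) +
        ((n : ℝ) + 2) * C ^ 2 * ∑' m : ℕ, ind (dset A n) m * exp (-(t * m)) := by
        rw [s2.tsum_add s3, tsum_mul_left]
    _ ≤ _ := by
        unfold En
        gcongr

/-- summed factorial inequality -/
lemma fact_sum {n : ℕ} (hn : n + 2 ≤ h) {t : ℝ} (ht : 0 < t) :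
    ((n + 2).factorial : ℝ) * Fr (ind A) t ^ (n + 2) ≤
      En (ind A) (n + 2) t + ((n + 2).factorial : ℝ) * C * Fr (ind A) t ^ (n + 1) := by
  obtain ⟨p1, p2, p3, _⟩ := hP.pow _ (ind_zero_or_one A) (n + 2)
  have hb := hP.mono A h C hC1 hC (n + 2) hn
  have s1 := summable_R p1 hb ht
  have s2 := summable_sq hP hC1 hC hn ht
  have s3 := (summable_a (ind_zero_or_one (dset A n)) ht).mul_left (((n + 2).factorial : ℝ) * C)
  have h1 := hP.dset A n t ht
  rw [p3 t ht, ← tsum_mul_left]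
  calc ∑' m : ℕ, ((n + 2).factorial : ℝ) * (cp (ind A) (n + 2) m * exp (-(t * m)))
      ≤ ∑' m : ℕ, (cp (ind A) (n + 2) m ^ 2 * exp (-(t * m)) +
        ((n + 2).factorial : ℝ) * C * (ind (dset A n) m * exp (-(t * m)))) := by
        refine (s1.mul_left _).tsum_le_tsum (fun m => ?_) (s2.add s3)
        have h2 := hP.fact A (n + 2) C hb m
        rw [show n + 2 - 2 = n by omega] at h2
        have h3 := exp_pos (-(t * m))
        have h4 := mul_le_mul_of_nonneg_right h2 h3.le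
        linarith
    _ = (∑' m : ℕ, cp (ind A) (n + 2) m ^ 2 * exp (-(t * m))) +
        ((n + 2).factorial : ℝ) * C * ∑' m : ℕ, ind (dset A n) m * exp (-(t * m)) := by
        rw [s2.tsum_add s3, tsum_mul_left]
    _ ≤ _ := by
        unfold En
        gcongr

end

/-- `(h - 1) (h - 1)!` -/
noncomputable def tauc (n : ℕ) : ℝ := ((n : ℝ) + 2) * ((n + 2).factorial : ℝ)

/-- the constant of the error term -/
noncomputable def errc (n : ℕ) (C : ℝ) : ℝ :=
  7 * ((n + 2) * ((n + 2).factorial * C + (n + 2) * C ^ 2) * (10 * C) ^ (n + 2)) +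
    4 * ((n + 2) * (10 * C)) * (4 * C ^ 2) ^ (n + 2) + 121 * C ^ 2

set_option maxHeartbeats 1000000 in
/-- the inequality at height `y = z ^ (4 h)`, `h = n + 3` -/
lemma key (hP : Parts) {A : Set ℕ} {n : ℕ} {C : ℝ} (hC1 : 1 ≤ C)
    (hC : ∀ j, cp (ind A) (n + 3) j ≤ C) {α β z : ℝ} (hα : 0 ≤ α) (hβ : 0 ≤ β)
    (hz : 0 < z) (hz1 : z ≤ 1) :
    ∃ M : ℝ, 0 ≤ M ∧ 2 * π * (2 * M ^ 2 - (α + β - tauc n) * M + α * β / 2) ≤
      2 * π * (z ^ (4 * (n + 3)) * ∑' j : ℕ, Ex (cp (ind A) (n + 3)) α β j *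
        exp (-(2 * z ^ (4 * (n + 3)) * j))) + errc n C * z := by
  have hpi := Real.pi_gt_three
  have hpi4 := Real.pi_lt_d2
  have hC0 : 0 ≤ C := by linarith
  have hh0 : n + 3 ≠ 0 := by omega
  have ha := ind_zero_or_one A
  obtain ⟨hR0, _, hFp, hDp⟩ := hP.pow (ind A) ha (n + 3)
  set y := z ^ (4 * (n + 3)) with hy
  have hy0 : 0 < y := by positivity
  have hy1 : y ≤ 1 := pow_le_one₀ hz.le hz1
  set d := z ^ (4 * n + 10) with hd
  have hd0 : 0 < d := by positivity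
  have hd1 : d ≤ 1 := pow_le_one₀ hz.le hz1
  have hyd : y = z ^ 2 * d := by rw [hy, hd, ← pow_add]; congr 1; omega
  set k : ℝ := 1 / ((n + 3 : ℕ) : ℝ) with hk
  set p := pw k y with hp
  have hp0 : 0 < p := pw_pos hy0
  have hpz : p = z ^ 4 := by
    rw [hp, hy, pow_mul, hk, one_div]
    unfold pw
    exact Real.pow_rpow_inv_natCast (by positivity) hh0
  have hpy : p ^ (n + 3) = y := pw_pow hh0 hy0.le
  set m := p * Fr (ind A) (2 * y) with hm
  have hF0 := Fr_nonneg ha (2 * y)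
  have hm0 : 0 ≤ m := by positivity
  have hmB : m ≤ 10 * C := pw_mul_Fr_le ha hP.pow hC hh0 hC1 hy0 (by linarith)
  have hmpow : m ^ (n + 3) = y * ∑' j : ℕ, cp (ind A) (n + 3) j * exp (-(2 * y * j)) := by
    rw [hm, mul_pow, hpy, hFp _ (by positivity)]
  have hMC : m ^ (n + 3) ≤ 3 / 2 * C := by
    have h1 := pw_mul_Fr_pow ha hP.pow hC hh0 hy0.le (show 0 < 2 * y by positivity)
    rw [hm]
    refine h1.trans ?_
    have h2 : y * (C * ((1 + 2 * y) / (2 * y))) = C * ((1 + 2 * y) / 2) := by field_simp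
    rw [h2]; nlinarith
  refine ⟨m ^ (n + 3), by positivity, ?_⟩
  set M := m ^ (n + 3) with hM
  -- energies
  set c := ((n : ℝ) + 2) * m with hc
  have hc0 : 0 ≤ c := by positivity
  set V := 4 * C ^ 2 / z ^ 4 with hV
  have cv : Continuous (fun x => vv k (Dir (ind A)) x y) :=
    cont_vv (per_Dir (adm_a ha)).c0 continuous_id continuous_const fun _ => hy0
  have hVx : ∀ x, vv k (Dir (ind A)) x y ≤ V := fun x =>
    vv_le ha hP.pow hh0 hC hC1 hz hz1 x
  have h1 := linearised (fun x => vv k (Dir (ind A)) x y) cv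
    (fun x => vv_nonneg _ _ hy0.le) (n + 1) hc0 hd0 hd1 hVx
  rw [show n + 1 + 1 = n + 2 by omega, show n + 1 + 2 = n + 3 by omega] at h1
  rw [int_pow_vv ha hP.pow k (n + 1) hy0, int_pow_vv ha hP.pow k (n + 2) hy0] at h1
  have h2 : ∫ x in d..2 * π - d, vv k (Dir (ind A)) x y ^ (n + 3) =
      y * ∫ x in d..2 * π - d, ‖Dir (cp (ind A) (n + 3)) (pt x y)‖ ^ 2 := by
    rw [← intervalIntegral.integral_const_mul]
    apply intervalIntegral.integral_congr
    intro x _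
    simp only
    rw [pow_vv ha hP.pow k (n + 3) x hy0, ← hp, hpy]
  rw [h2] at h1
  have h3 := upper1g hR0 hC hz hz1 hd0 hd1 (c := 2 * M) (by positivity) (by linarith)
  rw [← hyd] at h3
  have h4 := upper2 hR0 hC hα hβ hy0 (show 0 ≤ M by positivity) hMC hmpow.symm
  have e1 := ener_sum hP hC1 hC (show n + 2 ≤ n + 3 by omega) (show 0 < 2 * y by positivity)
  have e2 := fact_sum hP hC1 hC (show n + 2 ≤ n + 3 by omega) (show 0 < 2 * y by positivity)
  have hE1 := En_nonneg hP hC1 hC (n + 1) (2 * y)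
  have hE2 := En_nonneg hP hC1 hC (n + 2) (2 * y)
  -- normalised energies
  have f1 : c * (p ^ (n + 1) * En (ind A) (n + 1) (2 * y)) ≤
      p ^ (n + 2) * En (ind A) (n + 2) (2 * y) + ((n : ℝ) + 2) * C ^ 2 * p * m ^ (n + 1) := by
    calc c * (p ^ (n + 1) * En (ind A) (n + 1) (2 * y)) = p ^ (n + 2) *
          (((n : ℝ) + 2) * (Fr (ind A) (2 * y) * En (ind A) (n + 1) (2 * y))) := by
          rw [hc, hm]; ring
      _ ≤ p ^ (n + 2) * (En (ind A) (n + 2) (2 * y) +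
          ((n : ℝ) + 2) * C ^ 2 * Fr (ind A) (2 * y) ^ (n + 1)) := by gcongr
      _ = _ := by rw [hm]; ring
  have f2 : ((n + 2).factorial : ℝ) * m ^ (n + 2) ≤
      p ^ (n + 2) * En (ind A) (n + 2) (2 * y) +
        ((n + 2).factorial : ℝ) * C * p * m ^ (n + 1) := by
    calc ((n + 2).factorial : ℝ) * m ^ (n + 2) =
        p ^ (n + 2) * (((n + 2).factorial : ℝ) * Fr (ind A) (2 * y) ^ (n + 2)) := by
          rw [hm]; ring
      _ ≤ p ^ (n + 2) * (En (ind A) (n + 2) (2 * y) +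
          ((n + 2).factorial : ℝ) * C * Fr (ind A) (2 * y) ^ (n + 1)) := by gcongr
      _ = _ := by rw [hm]; ring
  set e_2 := p ^ (n + 2) * En (ind A) (n + 2) (2 * y) with he2
  set e_1 := p ^ (n + 1) * En (ind A) (n + 1) (2 * y) with he1
  -- lower bound
  have g1 : tauc n * M - p * (((n : ℝ) + 2) * (((n + 2).factorial : ℝ) * C +
      ((n : ℝ) + 2) * C ^ 2) * m ^ (n + 2)) ≤ 2 * c * e_2 - c ^ 2 * e_1 := by
    have g2 : c * (c * e_1) ≤ c * (e_2 + ((n : ℝ) + 2) * C ^ 2 * p * m ^ (n + 1)) := by gcongr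
    have g3 : c * (((n + 2).factorial : ℝ) * m ^ (n + 2)) ≤
        c * (e_2 + ((n + 2).factorial : ℝ) * C * p * m ^ (n + 1)) := by gcongr
    have g4 : c * (((n + 2).factorial : ℝ) * m ^ (n + 2)) = tauc n * M := by
      rw [hc, hM]; unfold tauc; ring
    have g5 : c * (((n : ℝ) + 2) * C ^ 2 * p * m ^ (n + 1)) +
        c * (((n + 2).factorial : ℝ) * C * p * m ^ (n + 1)) =
        p * (((n : ℝ) + 2) * (((n + 2).factorial : ℝ) * C +
      ((n : ℝ) + 2) * C ^ 2) * m ^ (n + 2)) := by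
      rw [hc]; ring
    linarith
  -- combine
  set E := y * ∑' j : ℕ, Ex (cp (ind A) (n + 3)) α β j * exp (-(2 * y * j)) with hE
  set I := y * ∫ x in d..2 * π - d, ‖Dir (cp (ind A) (n + 3)) (pt x y)‖ ^ 2 with hI
  have h6 : I ≤ 2 * π * ((α + β) * M - α * β / 2 - 2 * M ^ 2 + E + 9 * C ^ 2 * y) +
      64 * C ^ 2 * z := by
    refine h3.trans ?_
    gcongr
  -- error terms
  have hz4 : z ^ 4 ≤ z := by
    calc z ^ 4 ≤ z ^ 1 := pow_le_pow_of_le_one hz.le hz1 (by norm_num)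
      _ = z := pow_one z
  have hz2 : z ^ 2 ≤ z := by nlinarith
  have hyz : y ≤ z := by
    rw [hy]
    calc z ^ (4 * (n + 3)) ≤ z ^ 1 := pow_le_pow_of_le_one hz.le hz1 (by omega)
      _ = z := pow_one z
  set D1 := ((n : ℝ) + 2) * (((n + 2).factorial : ℝ) * C + ((n : ℝ) + 2) * C ^ 2) with hD1
  have hD10 : 0 ≤ D1 := by positivity
  have r1 : 2 * π * (p * (D1 * m ^ (n + 2))) ≤ 7 * (D1 * (10 * C) ^ (n + 2)) * z := by
    have h7 : 2 * π ≤ 7 := by linarith
    have h8 : p ≤ z := by rw [hpz]; exact hz4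
    calc 2 * π * (p * (D1 * m ^ (n + 2))) ≤ 7 * (z * (D1 * (10 * C) ^ (n + 2))) := by gcongr
      _ = _ := by ring
  have r2 : 2 * c * (2 * d * V ^ (n + 2)) ≤
      4 * (((n : ℝ) + 2) * (10 * C)) * (4 * C ^ 2) ^ (n + 2) * z := by
    have h7 : d * V ^ (n + 2) = (4 * C ^ 2) ^ (n + 2) * z ^ 2 := by
      rw [hV, hd, div_pow, ← pow_mul, show 4 * n + 10 = 4 * (n + 2) + 2 by ring, pow_add]
      field_simp
    calc 2 * c * (2 * d * V ^ (n + 2)) = 4 * c * (d * V ^ (n + 2)) := by ring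
      _ = 4 * (((n : ℝ) + 2) * m) * ((4 * C ^ 2) ^ (n + 2) * z ^ 2) := by rw [h7, hc]
      _ ≤ 4 * (((n : ℝ) + 2) * (10 * C)) * ((4 * C ^ 2) ^ (n + 2) * z) := by gcongr
      _ = _ := by ring
  have r3 : 2 * π * (9 * C ^ 2 * y) ≤ 57 * C ^ 2 * z := by
    have h9 : C ^ 2 * y ≤ C ^ 2 * z := by gcongr
    have h10 : 0 ≤ C ^ 2 * y := by positivity
    have h11 : 2 * π * 9 ≤ 57 := by linarith
    calc 2 * π * (9 * C ^ 2 * y) = (2 * π * 9) * (C ^ 2 * y) := by ring
      _ ≤ 57 * (C ^ 2 * z) := by gcongr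
      _ = _ := by ring
  have g6 := mul_le_mul_of_nonneg_left g1 (show 0 ≤ 2 * π by positivity)
  have herr : errc n C = 7 * (D1 * (10 * C) ^ (n + 2)) +
      4 * (((n : ℝ) + 2) * (10 * C)) * (4 * C ^ 2) ^ (n + 2) + 121 * C ^ 2 := by
    unfold errc; rw [hD1]
  rw [herr]
  clear_value E I M c e_1 e_2 V D1 d y
  linarith

end Pool.Agent.Helper65.EV
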