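import Pool.Agent.Helper65.EV.Main

set_option autoImplicit false

open MeasureTheory Metric Real Set Filter

/-!
# From scales to densities
-/

namespace Pool.Agent.Helper65.EV

open Pool.Agent.Helper65.ET (pt pt_re Dir Adm dc Fr adm_a a_sq a_nonneg
  summable_a Fr_anti Fr_nonneg per_Dir ind ind_nonneg
  ind_le_one ind_zero_or_one summable_exp tsum_ind_le)
open Pool.Agent.Helper65.EH

/-- sets whose counting function is at most `δ N` for large `N` -/
lemma abel (S : Set ℕ) {δ : ℝ} {N₁ : ℕ} (hδ : 0 ≤ δ)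
    (hS : ∀ N : ℕ, N₁ ≤ N → ({n | n < N ∧ n ∈ S}.ncard : ℝ) ≤ δ * N) {t : ℝ} (ht : 0 < t) :
    ∑' n : ℕ, ind S n * exp (-(t * n)) ≤ δ * ((1 + t) / t) + N₁ := by
  classical
  have hs1 : Summable (fun n : ℕ => ind S n * exp (-(t * n))) :=
    summable_a (ind_zero_or_one S) ht
  have hs2 := summable_exp ht
  have n1 : Summable (fun n : ℕ => ‖ind S n * exp (-(t * n))‖) := hs1.norm
  have n2 : Summable (fun n : ℕ => ‖exp (-(t * n))‖) := hs2.norm
  have hexp : ∀ (n : ℕ) (p : ℕ × ℕ), p ∈ Finset.HasAntidiagonal.antidiagonal n →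
      exp (-(t * n)) = exp (-(t * p.1)) * exp (-(t * p.2)) := by
    intro n p hp
    rw [Finset.HasAntidiagonal.mem_antidiagonal] at hp
    rw [← Real.exp_add, ← hp]; congr 1; push_cast; ring
  have e1 : ∀ n : ℕ, ∑ p ∈ Finset.HasAntidiagonal.antidiagonal n,
      (ind S p.1 * exp (-(t * p.1))) * exp (-(t * p.2)) =
      (∑ p ∈ Finset.HasAntidiagonal.antidiagonal n, ind S p.1) * exp (-(t * n)) := by
    intro n
    rw [Finset.sum_mul]
    refine Finset.sum_congr rfl fun p hp => ?_
    rw [hexp n p hp]; ring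
  have e2 : ∀ n : ℕ, ∑ p ∈ Finset.HasAntidiagonal.antidiagonal n,
      exp (-(t * p.1)) * exp (-(t * p.2)) = ((n : ℝ) + 1) * exp (-(t * n)) := by
    intro n
    have h1 : ∑ p ∈ Finset.HasAntidiagonal.antidiagonal n,
      exp (-(t * p.1)) * exp (-(t * p.2)) =
        ∑ _p ∈ Finset.HasAntidiagonal.antidiagonal n, exp (-(t * n)) :=
      Finset.sum_congr rfl fun p hp => (hexp n p hp).symm
    rw [h1, Finset.sum_const, Finset.Nat.card_antidiagonal, nsmul_eq_mul]
    push_cast; ring
  have p1 := tsum_mul_tsum_eq_tsum_sum_antidiagonal_of_summable_norm n1 n2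
  have p2 := tsum_mul_tsum_eq_tsum_sum_antidiagonal_of_summable_norm n2 n2
  simp_rw [e1] at p1
  simp_rw [e2] at p2
  have q1 : Summable (fun n : ℕ => (∑ p ∈ Finset.HasAntidiagonal.antidiagonal n, ind S p.1) *
      exp (-(t * n))) := by
    have h3 := (summable_norm_sum_mul_antidiagonal_of_summable_norm n1 n2).of_norm
    exact h3.congr fun n => e1 n
  have q2 : Summable (fun n : ℕ => ((n : ℝ) + 1) * exp (-(t * n))) := by
    have h3 := (summable_norm_sum_mul_antidiagonal_of_summable_norm n2 n2).of_norm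
    exact h3.congr fun n => e2 n
  have hcount : ∀ n : ℕ, ∑ p ∈ Finset.HasAntidiagonal.antidiagonal n, ind S p.1 ≤
      δ * (n + 1) + N₁ := by
    intro n
    have h1 : ∑ p ∈ Finset.HasAntidiagonal.antidiagonal n, ind S p.1 =
        (({m | m < n + 1 ∧ m ∈ S}.ncard : ℕ) : ℝ) := by
      have h2 : ∑ p ∈ Finset.HasAntidiagonal.antidiagonal n, ind S p.1 =
          ∑ m ∈ Finset.range (n + 1), ind S m :=
        Finset.Nat.sum_antidiagonal_eq_sum_range_succ (fun i _ => ind S i) n
      have h3 : {m | m < n + 1 ∧ m ∈ S} =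
          (((Finset.range (n + 1)).filter (fun m => m ∈ S) : Finset ℕ) : Set ℕ) := by
        ext m; simp
      rw [h2, h3, Set.ncard_coe_finset, Finset.card_filter]
      push_cast
      refine Finset.sum_congr rfl fun m _ => ?_
      unfold ind; rfl
    rw [h1]
    rcases le_total N₁ (n + 1) with h4 | h4
    · have := hS (n + 1) h4
      push_cast at this ⊢
      have h5 : (0 : ℝ) ≤ N₁ := by positivity
      linarith
    · have h5 : ({m | m < n + 1 ∧ m ∈ S}.ncard : ℝ) ≤ N₁ := by
        have h6 : {m | m < n + 1 ∧ m ∈ S}.ncard ≤ (Set.Iio (n + 1)).ncard :=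
          Set.ncard_le_ncard (fun m hm => hm.1) (Set.finite_Iio _)
        have h7 : (Set.Iio (n + 1)).ncard = n + 1 := by
          rw [← Finset.coe_Iio, Set.ncard_coe_finset, Nat.card_Iio]
        rw [h7] at h6
        exact_mod_cast h6.trans h4
      have h8 : 0 ≤ δ * ((n : ℝ) + 1) := by positivity
      linarith
  have hG := ET.tsum_exp_le ht
  have hG0 : 1 / t ≤ ∑' n : ℕ, exp (-(t * n)) := ET.le_tsum_exp ht
  set G := ∑' n : ℕ, exp (-(t * n)) with hGdef
  have hGpos : 0 < G := lt_of_lt_of_le (by positivity) hG0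
  have hmain : (∑' n : ℕ, ind S n * exp (-(t * n))) * G ≤ (δ * G + N₁) * G := by
    rw [p1]
    calc ∑' n : ℕ, (∑ p ∈ Finset.HasAntidiagonal.antidiagonal n, ind S p.1) * exp (-(t * n))
        ≤ ∑' n : ℕ, (δ * (((n : ℝ) + 1) * exp (-(t * n))) + N₁ * exp (-(t * n))) := by
          refine q1.tsum_le_tsum (fun n => ?_) ((q2.mul_left δ).add (hs2.mul_left (N₁ : ℝ)))
          have h1 := hcount n
          have h2 := exp_pos (-(t * n))
          have h3 := mul_le_mul_of_nonneg_right h1 h2.le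
          linarith
      _ = δ * (G * G) + N₁ * G := by
          rw [(q2.mul_left δ).tsum_add (hs2.mul_left (N₁ : ℝ)), tsum_mul_left, tsum_mul_left, p2]
      _ = _ := by ring
  have h1 := le_of_mul_le_mul_right hmain hGpos
  refine h1.trans ?_
  gcongr

set_option maxHeartbeats 1000000 in
/-- main density statement in terms of the ordered representation function -/
theorem density2 (hP : Parts) (n : ℕ) {C α β η : ℝ} (hC1 : 1 ≤ C) (hα : 0 < α) (hαβ : α ≤ β)
    (h : (α + β - tauc n) ^ 2 < 4 * α * β * (1 - η)) :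
    ∃ c : ℝ, 0 < c ∧ ∀ N₁ : ℕ, ∃ N₀ : ℕ, ∀ A Y X : Set ℕ, (∀ j, cp (ind A) (n + 3) j ≤ C) →
      (∀ j, j ∉ X → j ∉ dset A (n + 1) → cp (ind A) (n + 3) j ≤ β) →
      (∀ j, j ∉ Y → j ∉ dset A (n + 1) → α ≤ cp (ind A) (n + 3) j) →
      (∀ N : ℕ, N₁ ≤ N → ({j | j < N ∧ j ∈ Y}.ncard : ℝ) ≤ η * N) →
      ∀ N : ℕ, N₀ ≤ N → c * N ≤ ({j | j < N ∧ j ∈ X}.ncard : ℝ) := by
  set δ := (4 * α * β * (1 - η) - (α + β - tauc n) ^ 2) / 8 with hδdef
  have hδ : 0 < δ := by rw [hδdef]; linarith
  have hpoly : ∀ M : ℝ, 0 ≤ M →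
      δ + α * β * η / 2 ≤ 2 * M ^ 2 - (α + β - tauc n) * M + α * β / 2 := by
    intro M _
    rw [hδdef]
    nlinarith [sq_nonneg (4 * M - (α + β - tauc n))]
  have hα0 : 0 ≤ α := hα.le
  have hβ0 : 0 ≤ β := hα0.trans hαβ
  have hpi := Real.pi_gt_three
  set k : ℝ := 1 / ((n + 3 : ℕ) : ℝ) with hk
  have hk0 : 0 < k := by positivity
  have hh0 : n + 3 ≠ 0 := by omega
  have hh4 : 4 * (n + 3) ≠ 0 := by omega
  set k4 : ℝ := (((4 * (n + 3) : ℕ) : ℝ))⁻¹ with hk4
  have hk40 : 0 < k4 := by positivity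
  have hC0 : 0 ≤ C := by linarith
  set C2 := (C + α) * (C + β) with hC2
  have hC20 : 0 < C2 := by
    have h1 : 0 < C + α := by linarith
    have h2 : 0 < C + β := by linarith
    positivity
  have herr0 : 0 ≤ errc n C := by unfold errc; positivity
  -- choice of the parameters
  set W := 9 * C2 / δ + 1 with hW
  have hW0 : 1 ≤ W := by
    have : 0 ≤ 9 * C2 / δ := by positivity
    rw [hW]; linarith
  set c := δ / (4 * C2 * W) with hc
  have hc0 : 0 < c := by positivity
  -- large `N`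
  have hlimW : Tendsto (fun N : ℕ => W / (N : ℝ)) atTop (nhds 0) :=
    tendsto_const_div_atTop_nhds_zero_nat _
  have hlim : Tendsto (fun N : ℕ => C2 * (pw k (W / N) * (10 * C) ^ (n + 2))) atTop
      (nhds 0) := by
    have hcont : Continuous (pw k) := by
      unfold pw
      exact Real.continuous_rpow_const hk0.le
    have h2 := (hcont.tendsto 0).comp hlimW
    have h00 : pw k 0 = 0 := by unfold pw; exact Real.zero_rpow hk0.ne'
    rw [h00] at h2
    have h3 := (h2.mul_const ((10 * C) ^ (n + 2))).const_mul C2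
    simpa using h3
  have hlim2 : Tendsto (fun N : ℕ => errc n C * (W / (N : ℝ)) ^ k4) atTop (nhds 0) := by
    have hcont : Continuous (fun x : ℝ => x ^ k4) := Real.continuous_rpow_const hk40.le
    have h2 := (hcont.tendsto 0).comp hlimW
    rw [Real.zero_rpow hk40.ne'] at h2
    have h3 := h2.const_mul (errc n C)
    simpa using h3
  have hev := hlim.eventually (gt_mem_nhds (show (0 : ℝ) < δ / 8 by positivity))
  have hev2 := hlim2.eventually (gt_mem_nhds (show (0 : ℝ) < δ / 8 by positivity))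
  obtain ⟨N0, hN0⟩ := exists_nat_ge W
  refine ⟨c, hc0, fun N₁ => ?_⟩
  have hlim3 : Tendsto (fun N : ℕ => (α * β * (|η| + N₁)) * (W / (N : ℝ))) atTop (nhds 0) := by
    have h3 := hlimW.const_mul (α * β * (|η| + N₁))
    simpa using h3
  have hev3 := hlim3.eventually (gt_mem_nhds (show (0 : ℝ) < δ / 8 by positivity))
  obtain ⟨N1, hN1'⟩ := eventually_atTop.mp ((hev.and hev2).and hev3)
  refine ⟨max N1 (N0 + 1), fun A Y X hC hX hYX hY N hNN => ?_⟩
  obtain ⟨⟨hN1, hN1b⟩, hN1c⟩ := hN1' N ((le_max_left _ _).trans hNN)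
  have hη0 : 0 ≤ η := by
    have h1 := hY (N₁ + 1) (by omega)
    have h2 : (0 : ℝ) ≤ ({j | j < N₁ + 1 ∧ j ∈ Y}.ncard : ℝ) := by positivity
    have h3 : (0 : ℝ) < ((N₁ + 1 : ℕ) : ℝ) := by positivity
    by_contra h4
    push Not at h4
    have h5 : η * ((N₁ + 1 : ℕ) : ℝ) < 0 := mul_neg_of_neg_of_pos h4 h3
    linarith
  have hN2 : N0 + 1 ≤ N := (le_max_right _ _).trans hNN
  have ha := ind_zero_or_one A
  obtain ⟨hR0, _, _, _⟩ := hP.pow (ind A) ha (n + 3)
  -- pointwise bound for `Ex`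
  have hEx : ∀ j, Ex (cp (ind A) (n + 3)) α β j ≤ α * β * ind Y j +
      (C2 * ind X j + C2 * ind (dset A (n + 1)) j) := by
    intro j
    have h0 := Ex_le hR0 hC hα0 hβ0 j
    have hy0 : 0 ≤ α * β * ind Y j := by
      have := ind_nonneg Y j
      positivity
    by_cases h1 : j ∈ X
    · have e : ind X j = 1 := if_pos h1
      have := ind_nonneg (dset A (n + 1)) j
      rw [e]; nlinarith
    · by_cases h2 : j ∈ dset A (n + 1)
      · have e : ind (dset A (n + 1)) j = 1 := if_pos h2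
        have := ind_nonneg X j
        rw [e]; nlinarith
      · have h4 := hX j h1 h2
        have h5 := ind_nonneg X j
        have h6 := ind_nonneg (dset A (n + 1)) j
        have h7 := hR0 j
        by_cases h3 : j ∈ Y
        · have e : ind Y j = 1 := if_pos h3
          have h8 : Ex (cp (ind A) (n + 3)) α β j ≤ α * β := by
            unfold Ex
            apply max_le (by positivity)
            nlinarith
          rw [e]
          have h9 : 0 ≤ C2 * ind X j + C2 * ind (dset A (n + 1)) j := by positivity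
          linarith
        · have h3' := hYX j h3 h2
          have : Ex (cp (ind A) (n + 3)) α β j = 0 := by
            unfold Ex
            apply max_eq_left
            nlinarith
          rw [this]; positivity
  have hN : W < N := by
    have : (N0 : ℝ) + 1 ≤ N := by exact_mod_cast hN2
    linarith
  have hNpos : (0 : ℝ) < N := by linarith
  set y := W / (N : ℝ) with hy
  have hy0 : 0 < y := by positivity
  have hy1 : y ≤ 1 := by rw [hy, div_le_one hNpos]; exact hN.le
  set z := y ^ k4 with hz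
  have hz0 : 0 < z := Real.rpow_pos_of_pos hy0 _
  have hz1 : z ≤ 1 := Real.rpow_le_one hy0.le hy1 hk40.le
  have hzy : z ^ (4 * (n + 3)) = y := Real.rpow_inv_natCast_pow hy0.le hh4
  obtain ⟨M, hM0, hM⟩ := key hP hC1 hC hα0 hβ0 hz0 hz1
  rw [hzy] at hM
  have h2y : 0 < 2 * y := by positivity
  -- bound for the exceptional sum
  have hBt : y * ∑' j : ℕ, Ex (cp (ind A) (n + 3)) α β j * exp (-(2 * y * j)) ≤
      α * β * (η * (1 / 2 + y) + N₁ * y) + C2 * (y * ({j | j < N ∧ j ∈ X}.ncard : ℝ) + 3 / 2 * exp (-(2 * y * N)) +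
        pw k y * (10 * C) ^ (n + 2)) := by
    have s1 := (summable_a (ind_zero_or_one X) h2y).mul_left C2
    have s2 := (summable_a (ind_zero_or_one (dset A (n + 1))) h2y).mul_left C2
    have s0 := (summable_a (ind_zero_or_one Y) h2y).mul_left (α * β)
    have h0 := abel Y hη0 hY h2y
    have h1 : ∑' j : ℕ, Ex (cp (ind A) (n + 3)) α β j * exp (-(2 * y * j)) ≤
        α * β * (∑' j : ℕ, ind Y j * exp (-(2 * y * j))) +
        (C2 * (∑' j : ℕ, ind X j * exp (-(2 * y * j))) +
          C2 * ∑' j : ℕ, ind (dset A (n + 1)) j * exp (-(2 * y * j))) := by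
      rw [← tsum_mul_left, ← tsum_mul_left, ← tsum_mul_left, ← s1.tsum_add s2,
        ← s0.tsum_add (s1.add s2)]
      refine (summable_Ex hR0 hC hα0 hβ0 h2y).tsum_le_tsum (fun j => ?_)
        (s0.add (s1.add s2))
      have h2 := exp_pos (-(2 * y * j))
      have h3 := hEx j
      nlinarith
    have h2 := tsum_ind_le X N h2y
    have h3 : ∑' j : ℕ, ind (dset A (n + 1)) j * exp (-(2 * y * j)) ≤
        Fr (ind A) (2 * y) ^ (n + 2) := hP.dset A (n + 1) (2 * y) h2y
    have h4 := pw_mul_Fr_le ha hP.pow hC hh0 hC1 hy0 (by linarith)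
    have h5 : y * Fr (ind A) (2 * y) ^ (n + 2) ≤ pw k y * (10 * C) ^ (n + 2) := by
      have e : y = pw k y ^ (n + 3) := (pw_pow hh0 hy0.le).symm
      have h7 := pw_pos (k := k) hy0
      have h8 := Fr_nonneg ha (2 * y)
      calc y * Fr (ind A) (2 * y) ^ (n + 2) =
            pw k y ^ (n + 3) * Fr (ind A) (2 * y) ^ (n + 2) := by rw [← e]
        _ = pw k y * (pw k y * Fr (ind A) (2 * y)) ^ (n + 2) := by ring
        _ ≤ pw k y * (10 * C) ^ (n + 2) := by gcongr
    calc y * ∑' j : ℕ, Ex (cp (ind A) (n + 3)) α β j * exp (-(2 * y * j))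
        ≤ y * (α * β * (η * ((1 + 2 * y) / (2 * y)) + N₁) +
          (C2 * (({j | j < N ∧ j ∈ X}.ncard : ℝ) +
            exp (-(2 * y * N)) * ((1 + 2 * y) / (2 * y))) +
              C2 * Fr (ind A) (2 * y) ^ (n + 2))) := by
          gcongr
          refine h1.trans ?_
          gcongr
      _ = α * β * (η * (1 / 2 + y) + N₁ * y) + C2 * (y * ({j | j < N ∧ j ∈ X}.ncard : ℝ) +
            exp (-(2 * y * N)) * ((1 + 2 * y) / 2) + y * Fr (ind A) (2 * y) ^ (n + 2)) := by
          field_simp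
      _ ≤ α * β * (η * (1 / 2 + y) + N₁ * y) + C2 * (y * ({j | j < N ∧ j ∈ X}.ncard : ℝ) +
            exp (-(2 * y * N)) * (3 / 2) + pw k y * (10 * C) ^ (n + 2)) := by
          gcongr
          linarith
      _ = _ := by ring
  have p0 := hpoly M hM0
  have p1 : δ + α * β * η / 2 ≤ y * ∑' j : ℕ, Ex (cp (ind A) (n + 3)) α β j * exp (-(2 * y * j)) +
      errc n C * z := by
    have h1 : 2 * π * (δ + α * β * η / 2) ≤ 2 * π * (y * ∑' j : ℕ, Ex (cp (ind A) (n + 3)) α β j *
        exp (-(2 * y * j)) + errc n C * z) := by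
      have h2 : 2 * π * (δ + α * β * η / 2) ≤ 2 * π * (2 * M ^ 2 - (α + β - tauc n) * M + α * β / 2) := by gcongr
      have h3 : errc n C * z ≤ 2 * π * (errc n C * z) := by
        have : 0 ≤ errc n C * z := by positivity
        nlinarith
      linarith
    exact le_of_mul_le_mul_left h1 (by positivity)
  have p2 : C2 * (3 / 2 * exp (-(2 * y * N))) ≤ δ / 4 := by
    have h1 : 2 * y * N = 2 * W := by rw [hy]; field_simp
    have h3 : exp (-(2 * W)) ≤ 1 / (2 * W) := by
      rw [Real.exp_neg, ← one_div]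
      apply one_div_le_one_div_of_le (by positivity)
      linarith [Real.add_one_le_exp (2 * W)]
    have h4 : 9 * C2 / δ ≤ W := by rw [hW]; linarith
    rw [div_le_iff₀ hδ] at h4
    rw [h1]
    calc C2 * (3 / 2 * exp (-(2 * W))) ≤ C2 * (3 / 2 * (1 / (2 * W))) := by
          gcongr
      _ = 3 / 4 * C2 / W := by field_simp; ring
      _ ≤ δ / 4 := by
          rw [div_le_iff₀ (by linarith)]
          nlinarith
  have p3 : δ / 4 ≤ C2 * (y * ({j | j < N ∧ j ∈ X}.ncard : ℝ)) := by
    have h1 := hN1.le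
    have h2 := hN1b.le
    have h3 := hN1c.le
    rw [abs_of_nonneg hη0] at h3
    have h4 : α * β * (η * (1 / 2 + y) + N₁ * y) =
        α * β * η / 2 + (α * β * (η + N₁)) * y := by ring
    rw [h4] at hBt
    nlinarith
  rw [hc, div_mul_eq_mul_div, div_le_iff₀ (by positivity)]
  have h5 : C2 * (y * ({j | j < N ∧ j ∈ X}.ncard : ℝ)) * N =
      C2 * W * ({j | j < N ∧ j ∈ X}.ncard : ℝ) := by
    rw [hy]; field_simp
  have h6 := mul_le_mul_of_nonneg_right p3 hNpos.le
  rw [h5] at h6
  linarith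

end Pool.Agent.Helper65.EV
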