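import Pool.Agent.Helper65.EH.Defs

set_option autoImplicit false

/-!
# Energies of the sums of `j < h` elements (stage 2 of EH)
-/

namespace Pool.Agent.Helper65.EV

open Pool.Agent.Helper65.ET (ind)
open Pool.Agent.Helper65.EH (cp dset)

/-- Count `(f, g, i, i')` with `f, g : Fin (j + 1) → A`, `∑ f = ∑ g = n`, `f i = g i'`. For fixed
`(i, i')` there are `∑_{x + m = n} ind A x * (cp j m)²` pairs `(f, g)` (remove coordinate `i` of `f`
and `i'` of `g`), so the total is `(j + 1)²` times the left sum. For fixed `(f, g)` there are at most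
`j + 1` pairs `(i, i')` if `f` is injective and at most `(j + 1)²` otherwise, and if some `f` is not
injective then `n ∈ dset A (j - 1)` (for `j = 0` every `f` is injective). Divide by `j + 1`. -/
def S_ENER : Prop := ∀ (A : Set ℕ) (j : ℕ) (C : ℝ), (∀ n, cp (ind A) (j + 1) n ≤ C) → ∀ n : ℕ,
  ((j : ℝ) + 1) * (∑ p ∈ Finset.HasAntidiagonal.antidiagonal n,
      ind A p.1 * cp (ind A) j p.2 ^ 2) ≤
    cp (ind A) (j + 1) n ^ 2 + ((j : ℝ) + 1) * C ^ 2 * ind (dset A (j - 1)) n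

/-- `cp j n ≤ cp (j + 1) (n + x₀)` for `x₀ ∈ A`; `A = ∅` separately -/
def S_MONO : Prop := ∀ (A : Set ℕ) (h : ℕ) (C : ℝ), 1 ≤ C → (∀ n, cp (ind A) h n ≤ C) →
  ∀ j : ℕ, j ≤ h → ∀ n, cp (ind A) j n ≤ C

/-- `R` is bounded below by the factorial: `cp j n = j! rep j n`, hence `cp j n ^ 2 ≥ j! cp j n`
outside `dset A (j - 2)` -/
def S_FACT : Prop := ∀ (A : Set ℕ) (j : ℕ) (C : ℝ), (∀ n, cp (ind A) j n ≤ C) → ∀ n : ℕ,
  (j.factorial : ℝ) * cp (ind A) j n ≤
    cp (ind A) j n ^ 2 + (j.factorial : ℝ) * C * ind (dset A (j - 2)) n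

end Pool.Agent.Helper65.EV
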