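import Pool.Agent.Helper65.EV.Main

set_option autoImplicit false

open MeasureTheory Metric Real Set Filter

/-!
# From scales to densities
-/

namespace Pool.Agent.Helper65.EV

open Pool.Agent.Helper65.ET (pt pt_re Dir Adm dc Fr adm_a a_sq a_nonneg
  summable_a Fr_anti Fr_nonneg per_Dir ind ind_nonneg
  ind_le_one ind_zero_or_one summable_exp tsum_ind_le)
open Pool.Agent.Helper65.EH

/-- the polynomial inequality -/
lemma poly {α β τ : ℝ} (hα : 0 < α) (hαβ : α ≤ β) (h : (√β - √α) ^ 2 < τ) :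
    ∃ δ : ℝ, 0 < δ ∧ ∀ M : ℝ, 0 ≤ M → δ ≤ 2 * M ^ 2 - (α + β - τ) * M + α * β / 2 := by
  have hβ : 0 < β := lt_of_lt_of_le hα hαβ
  have h1 : √α ^ 2 = α := Real.sq_sqrt hα.le
  have h2 : √β ^ 2 = β := Real.sq_sqrt hβ.le
  set s := √α * √β with hs
  have hs0 : 0 < s := by positivity
  have hs2 : s ^ 2 = α * β := by rw [hs, mul_pow, h1, h2]
  set g := τ - (√β - √α) ^ 2 with hg
  have hg0 : 0 < g := by rw [hg]; linarith
  refine ⟨min (g * s / 4) (s ^ 2 / 8), by positivity, fun M hM => ?_⟩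
  have e : 2 * M ^ 2 - (α + β - τ) * M + α * β / 2 = 2 * (M - s / 2) ^ 2 + g * M := by
    have h3 : (√β - √α) ^ 2 = β + α - 2 * s := by rw [hs]; nlinarith
    rw [hg, h3, ← hs2]; ring
  rw [e]
  rcases le_total (s / 4) M with h3 | h3
  · refine (min_le_left _ _).trans ?_
    nlinarith [sq_nonneg (M - s / 2)]
  · refine (min_le_right _ _).trans ?_
    nlinarith [mul_nonneg hg0.le hM]

set_option maxHeartbeats 1000000 in
/-- main density statement in terms of the ordered representation function -/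
theorem density (hP : Parts) (n : ℕ) {C α β : ℝ} (hC1 : 1 ≤ C) (hα : 0 < α) (hαβ : α ≤ β)
    (h : (√β - √α) ^ 2 < tauc n) :
    ∃ c : ℝ, 0 < c ∧ ∃ N₀ : ℕ, ∀ A X : Set ℕ, (∀ j, cp (ind A) (n + 3) j ≤ C) →
      (∀ j, j ∉ X → j ∉ dset A (n + 1) →
        α ≤ cp (ind A) (n + 3) j ∧ cp (ind A) (n + 3) j ≤ β) →
      ∀ N : ℕ, N₀ ≤ N → c * N ≤ ({j | j < N ∧ j ∈ X}.ncard : ℝ) := by
  obtain ⟨δ, hδ, hpoly⟩ := poly hα hαβ h
  have hα0 : 0 ≤ α := hα.le
  have hβ0 : 0 ≤ β := hα0.trans hαβ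
  have hpi := Real.pi_gt_three
  set k : ℝ := 1 / ((n + 3 : ℕ) : ℝ) with hk
  have hk0 : 0 < k := by positivity
  have hh0 : n + 3 ≠ 0 := by omega
  have hh4 : 4 * (n + 3) ≠ 0 := by omega
  set k4 : ℝ := (((4 * (n + 3) : ℕ) : ℝ))⁻¹ with hk4
  have hk40 : 0 < k4 := by positivity
  have hC0 : 0 ≤ C := by linarith
  set C2 := (C + α) * (C + β) with hC2
  have hC20 : 0 < C2 := by
    have h1 : 0 < C + α := by linarith
    have h2 : 0 < C + β := by linarith
    positivity
  have herr0 : 0 ≤ errc n C := by unfold errc; positivity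
  -- choice of the parameters
  set W := 9 * C2 / δ + 1 with hW
  have hW0 : 1 ≤ W := by
    have : 0 ≤ 9 * C2 / δ := by positivity
    rw [hW]; linarith
  set c := δ / (4 * C2 * W) with hc
  have hc0 : 0 < c := by positivity
  -- large `N`
  have hlimW : Tendsto (fun N : ℕ => W / (N : ℝ)) atTop (nhds 0) :=
    tendsto_const_div_atTop_nhds_zero_nat _
  have hlim : Tendsto (fun N : ℕ => C2 * (pw k (W / N) * (10 * C) ^ (n + 2))) atTop
      (nhds 0) := by
    have hcont : Continuous (pw k) := by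
      unfold pw
      exact Real.continuous_rpow_const hk0.le
    have h2 := (hcont.tendsto 0).comp hlimW
    have h00 : pw k 0 = 0 := by unfold pw; exact Real.zero_rpow hk0.ne'
    rw [h00] at h2
    have h3 := (h2.mul_const ((10 * C) ^ (n + 2))).const_mul C2
    simpa using h3
  have hlim2 : Tendsto (fun N : ℕ => errc n C * (W / (N : ℝ)) ^ k4) atTop (nhds 0) := by
    have hcont : Continuous (fun x : ℝ => x ^ k4) := Real.continuous_rpow_const hk40.le
    have h2 := (hcont.tendsto 0).comp hlimW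
    rw [Real.zero_rpow hk40.ne'] at h2
    have h3 := h2.const_mul (errc n C)
    simpa using h3
  have hev := hlim.eventually (gt_mem_nhds (show (0 : ℝ) < δ / 4 by positivity))
  have hev2 := hlim2.eventually (gt_mem_nhds (show (0 : ℝ) < δ / 4 by positivity))
  obtain ⟨N0, hN0⟩ := exists_nat_ge W
  obtain ⟨N1, hN1'⟩ := eventually_atTop.mp (hev.and hev2)
  refine ⟨c, hc0, max N1 (N0 + 1), fun A X hC hX N hNN => ?_⟩
  obtain ⟨hN1, hN1b⟩ := hN1' N ((le_max_left _ _).trans hNN)
  have hN2 : N0 + 1 ≤ N := (le_max_right _ _).trans hNN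
  have ha := ind_zero_or_one A
  obtain ⟨hR0, _, _, _⟩ := hP.pow (ind A) ha (n + 3)
  -- pointwise bound for `Ex`
  have hEx : ∀ j, Ex (cp (ind A) (n + 3)) α β j ≤ C2 * ind X j + C2 * ind (dset A (n + 1)) j := by
    intro j
    have h0 := Ex_le hR0 hC hα0 hβ0 j
    by_cases h1 : j ∈ X
    · have e : ind X j = 1 := if_pos h1
      have := ind_nonneg (dset A (n + 1)) j
      rw [e]; nlinarith
    · by_cases h2 : j ∈ dset A (n + 1)
      · have e : ind (dset A (n + 1)) j = 1 := if_pos h2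
        have := ind_nonneg X j
        rw [e]; nlinarith
      · obtain ⟨h3, h4⟩ := hX j h1 h2
        have h5 := ind_nonneg X j
        have h6 := ind_nonneg (dset A (n + 1)) j
        have : Ex (cp (ind A) (n + 3)) α β j = 0 := by
          unfold Ex
          apply max_eq_left
          nlinarith
        rw [this]; positivity
  have hN : W < N := by
    have : (N0 : ℝ) + 1 ≤ N := by exact_mod_cast hN2
    linarith
  have hNpos : (0 : ℝ) < N := by linarith
  set y := W / (N : ℝ) with hy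
  have hy0 : 0 < y := by positivity
  have hy1 : y ≤ 1 := by rw [hy, div_le_one hNpos]; exact hN.le
  set z := y ^ k4 with hz
  have hz0 : 0 < z := Real.rpow_pos_of_pos hy0 _
  have hz1 : z ≤ 1 := Real.rpow_le_one hy0.le hy1 hk40.le
  have hzy : z ^ (4 * (n + 3)) = y := Real.rpow_inv_natCast_pow hy0.le hh4
  obtain ⟨M, hM0, hM⟩ := key hP hC1 hC hα0 hβ0 hz0 hz1
  rw [hzy] at hM
  have h2y : 0 < 2 * y := by positivity
  -- bound for the exceptional sum
  have hBt : y * ∑' j : ℕ, Ex (cp (ind A) (n + 3)) α β j * exp (-(2 * y * j)) ≤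
      C2 * (y * ({j | j < N ∧ j ∈ X}.ncard : ℝ) + 3 / 2 * exp (-(2 * y * N)) +
        pw k y * (10 * C) ^ (n + 2)) := by
    have s1 := (summable_a (ind_zero_or_one X) h2y).mul_left C2
    have s2 := (summable_a (ind_zero_or_one (dset A (n + 1))) h2y).mul_left C2
    have h1 : ∑' j : ℕ, Ex (cp (ind A) (n + 3)) α β j * exp (-(2 * y * j)) ≤
        C2 * (∑' j : ℕ, ind X j * exp (-(2 * y * j))) +
          C2 * ∑' j : ℕ, ind (dset A (n + 1)) j * exp (-(2 * y * j)) := by
      rw [← tsum_mul_left, ← tsum_mul_left, ← s1.tsum_add s2]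
      refine (summable_Ex hR0 hC hα0 hβ0 h2y).tsum_le_tsum (fun j => ?_)
        (s1.add s2)
      have h2 := exp_pos (-(2 * y * j))
      have h3 := hEx j
      nlinarith
    have h2 := tsum_ind_le X N h2y
    have h3 : ∑' j : ℕ, ind (dset A (n + 1)) j * exp (-(2 * y * j)) ≤
        Fr (ind A) (2 * y) ^ (n + 2) := hP.dset A (n + 1) (2 * y) h2y
    have h4 := pw_mul_Fr_le ha hP.pow hC hh0 hC1 hy0 (by linarith)
    have h5 : y * Fr (ind A) (2 * y) ^ (n + 2) ≤ pw k y * (10 * C) ^ (n + 2) := by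
      have e : y = pw k y ^ (n + 3) := (pw_pow hh0 hy0.le).symm
      have h7 := pw_pos (k := k) hy0
      have h8 := Fr_nonneg ha (2 * y)
      calc y * Fr (ind A) (2 * y) ^ (n + 2) =
            pw k y ^ (n + 3) * Fr (ind A) (2 * y) ^ (n + 2) := by rw [← e]
        _ = pw k y * (pw k y * Fr (ind A) (2 * y)) ^ (n + 2) := by ring
        _ ≤ pw k y * (10 * C) ^ (n + 2) := by gcongr
    calc y * ∑' j : ℕ, Ex (cp (ind A) (n + 3)) α β j * exp (-(2 * y * j))
        ≤ y * (C2 * (({j | j < N ∧ j ∈ X}.ncard : ℝ) +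
            exp (-(2 * y * N)) * ((1 + 2 * y) / (2 * y))) +
              C2 * Fr (ind A) (2 * y) ^ (n + 2)) := by
          gcongr
          refine h1.trans ?_
          gcongr
      _ = C2 * (y * ({j | j < N ∧ j ∈ X}.ncard : ℝ) +
            exp (-(2 * y * N)) * ((1 + 2 * y) / 2) + y * Fr (ind A) (2 * y) ^ (n + 2)) := by
          field_simp
      _ ≤ C2 * (y * ({j | j < N ∧ j ∈ X}.ncard : ℝ) +
            exp (-(2 * y * N)) * (3 / 2) + pw k y * (10 * C) ^ (n + 2)) := by
          gcongr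
          linarith
      _ = _ := by ring
  have p0 := hpoly M hM0
  have p1 : δ ≤ y * ∑' j : ℕ, Ex (cp (ind A) (n + 3)) α β j * exp (-(2 * y * j)) +
      errc n C * z := by
    have h1 : 2 * π * δ ≤ 2 * π * (y * ∑' j : ℕ, Ex (cp (ind A) (n + 3)) α β j *
        exp (-(2 * y * j)) + errc n C * z) := by
      have h2 : 2 * π * δ ≤ 2 * π * (2 * M ^ 2 - (α + β - tauc n) * M + α * β / 2) := by gcongr
      have h3 : errc n C * z ≤ 2 * π * (errc n C * z) := by
        have : 0 ≤ errc n C * z := by positivity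
        nlinarith
      linarith
    exact le_of_mul_le_mul_left h1 (by positivity)
  have p2 : C2 * (3 / 2 * exp (-(2 * y * N))) ≤ δ / 4 := by
    have h1 : 2 * y * N = 2 * W := by rw [hy]; field_simp
    have h3 : exp (-(2 * W)) ≤ 1 / (2 * W) := by
      rw [Real.exp_neg, ← one_div]
      apply one_div_le_one_div_of_le (by positivity)
      linarith [Real.add_one_le_exp (2 * W)]
    have h4 : 9 * C2 / δ ≤ W := by rw [hW]; linarith
    rw [div_le_iff₀ hδ] at h4
    rw [h1]
    calc C2 * (3 / 2 * exp (-(2 * W))) ≤ C2 * (3 / 2 * (1 / (2 * W))) := by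
          gcongr
      _ = 3 / 4 * C2 / W := by field_simp; ring
      _ ≤ δ / 4 := by
          rw [div_le_iff₀ (by linarith)]
          nlinarith
  have p3 : δ / 4 ≤ C2 * (y * ({j | j < N ∧ j ∈ X}.ncard : ℝ)) := by
    have h1 := hN1.le
    have h2 := hN1b.le
    nlinarith
  rw [hc, div_mul_eq_mul_div, div_le_iff₀ (by positivity)]
  have h5 : C2 * (y * ({j | j < N ∧ j ∈ X}.ncard : ℝ)) * N =
      C2 * W * ({j | j < N ∧ j ∈ X}.ncard : ℝ) := by
    rw [hy]; field_simp
  have h6 := mul_le_mul_of_nonneg_right p3 hNpos.le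
  rw [h5] at h6
  linarith

end Pool.Agent.Helper65.EV
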