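import Pool.Agent.Helper65.EV.Defs
import Pool.Agent.Helper65.EH.Norms

set_option autoImplicit false

open MeasureTheory Metric Real Set

/-!
# The variance inequality at every scale
-/

namespace Pool.Agent.Helper65.EV

open Pool.Agent.Helper65.ET (pt pt_re Dir Adm dc Fr adm_a a_sq a_nonneg dc_mul Dir_mul Dir_add
  integral_norm_Dir summable_a norm_F_le norm_F1_le Fr_anti Fr_nonneg per_Dir ind ind_nonneg
  ind_le_one ind_zero_or_one summable_exp tsum_exp_le le_tsum_exp adm_const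
  cont_Dir norm_sq_le integral_Gc_le tsum_sub_sq norm_Dir_le)
open Pool.Agent.Helper65.EH

section

variable {R : ℕ → ℝ} {C : ℝ} (hR0 : ∀ n, 0 ≤ R n) (hC : ∀ n, R n ≤ C)

include hR0 hC

lemma upper1g {z d c : ℝ} (hz : 0 < z) (hz1 : z ≤ 1) (hd0 : 0 < d) (hd1 : d ≤ 1) (hc : 0 ≤ c)
    (hc3 : c ≤ 3 * C) :
    z ^ 2 * d * ∫ x in d..2 * π - d, ‖Dir R (pt x (z ^ 2 * d))‖ ^ 2 ≤
      2 * π * (z ^ 2 * d * ∑' n : ℕ, (R n - c) ^ 2 * exp (-(2 * (z ^ 2 * d) * n))) +
        64 * C ^ 2 * z := by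
  have hpi := Real.pi_gt_three
  have hpi4 := Real.pi_lt_d2
  have hC0 := C_nonneg hR0 hC
  set y := z ^ 2 * d with hy
  have hy0 : 0 < y := by positivity
  have hz2 : z ^ 2 ≤ 1 := pow_le_one₀ hz.le hz1
  have hy1 : y ≤ 1 := by rw [hy]; nlinarith
  have admR := adm_R hR0 hC
  have hHadm : Adm (fun n => R n - c) := by
    have := admR.add (adm_const (-c))
    exact this
  have cG := cont_Dir admR hy0
  have cH := cont_Dir hHadm hy0
  have cc1 := cont_Dir (adm_const c) hy0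
  have hsub : ∀ x, Dir R (pt x y) - Dir (fun n => R n - c) (pt x y) =
      Dir (fun _ => c) (pt x y) := by
    intro x
    have hs : 0 < (pt x y).re := by rw [pt_re]; exact hy0
    have h1 := Dir_add hHadm (adm_const c) hs
    simp only [sub_add_cancel] at h1
    have h2 : Dir (fun n => R n) (pt x y) = Dir R (pt x y) := rfl
    rw [← h2, h1]; ring
  have hpt : ∀ x, ‖Dir R (pt x y)‖ ^ 2 ≤ ‖Dir (fun n => R n - c) (pt x y)‖ ^ 2 +
      z * ‖Dir R (pt x y)‖ ^ 2 + z⁻¹ * ‖Dir (fun _ => c) (pt x y)‖ ^ 2 := by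
    intro x
    rw [← hsub x]
    exact norm_sq_le _ _ z hz
  have i1 : ∫ x in d..2 * π - d, ‖Dir R (pt x y)‖ ^ 2 ≤
      (∫ x in d..2 * π - d, ‖Dir (fun n => R n - c) (pt x y)‖ ^ 2) +
      z * (∫ x in d..2 * π - d, ‖Dir R (pt x y)‖ ^ 2) +
      z⁻¹ * ∫ x in d..2 * π - d, ‖Dir (fun _ => c) (pt x y)‖ ^ 2 := by
    rw [← intervalIntegral.integral_const_mul, ← intervalIntegral.integral_const_mul,
      ← intervalIntegral.integral_add (by apply Continuous.intervalIntegrable; fun_prop)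
        (by apply Continuous.intervalIntegrable; fun_prop),
      ← intervalIntegral.integral_add (by apply Continuous.intervalIntegrable; fun_prop)
        (by apply Continuous.intervalIntegrable; fun_prop)]
    apply intervalIntegral.integral_mono_on (by linarith)
      (by apply Continuous.intervalIntegrable; fun_prop)
      (by apply Continuous.intervalIntegrable; fun_prop) (fun x _ => hpt x)
  have i2 : ∀ g : ℝ → ℝ, Continuous g → (∀ x, 0 ≤ g x) →
      ∫ x in d..2 * π - d, g x ≤ ∫ x in (0 : ℝ)..2 * π, g x := by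
    intro g hg hg0
    apply intervalIntegral.integral_mono_interval hd0.le (by linarith) (by linarith)
    · exact Filter.Eventually.of_forall hg0
    · exact hg.intervalIntegrable _ _
  have i3 := i2 (fun x => ‖Dir (fun n => R n - c) (pt x y)‖ ^ 2) (cH.norm.pow 2)
    (fun x => by positivity)
  have i4 := i2 (fun x => ‖Dir R (pt x y)‖ ^ 2) (cG.norm.pow 2) (fun x => by positivity)
  rw [integral_norm_Dir hHadm hy0] at i3
  rw [integral_norm_Dir admR hy0] at i4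
  have i5 := integral_Gc_le c hy0 hy1 hd0 hd1
  have i6 := tsum_R_sq_le hR0 hC hy0 hy1
  have e8 : y * z⁻¹ * (6 * c ^ 2 / d) = 6 * c ^ 2 * z := by
    rw [hy]; field_simp
  have hc2 : c ^ 2 ≤ 9 * C ^ 2 := by nlinarith
  calc y * ∫ x in d..2 * π - d, ‖Dir R (pt x y)‖ ^ 2
      ≤ y * ((∫ x in d..2 * π - d, ‖Dir (fun n => R n - c) (pt x y)‖ ^ 2) +
      z * (∫ x in d..2 * π - d, ‖Dir R (pt x y)‖ ^ 2) +
      z⁻¹ * ∫ x in d..2 * π - d, ‖Dir (fun _ => c) (pt x y)‖ ^ 2) := by gcongr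
    _ ≤ y * (2 * π * (∑' n : ℕ, (R n - c) ^ 2 * exp (-(2 * y * n))) +
      z * (2 * π * ∑' n : ℕ, R n ^ 2 * exp (-(2 * y * n))) + z⁻¹ * (6 * c ^ 2 / d)) := by
        gcongr
    _ = 2 * π * (y * ∑' n : ℕ, (R n - c) ^ 2 * exp (-(2 * y * n))) +
      2 * π * z * (y * ∑' n : ℕ, R n ^ 2 * exp (-(2 * y * n))) + y * z⁻¹ * (6 * c ^ 2 / d) := by
        ring
    _ ≤ 2 * π * (y * ∑' n : ℕ, (R n - c) ^ 2 * exp (-(2 * y * n))) +
      2 * π * z * (3 / 2 * C ^ 2) + 6 * (9 * C ^ 2) * z := by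
        rw [e8]; gcongr
    _ ≤ _ := by
        have : 2 * π * z * (3 / 2 * C ^ 2) ≤ 10 * C ^ 2 * z := by
          have h1 : 0 ≤ C ^ 2 * z := by positivity
          nlinarith
        linarith

end

/-- `E_j(t) = ∑ R_j(n)² e^{-tn}` -/
noncomputable def En (a : ℕ → ℝ) (j : ℕ) (t : ℝ) : ℝ := ∑' m : ℕ, cp a j m ^ 2 * exp (-(t * m))

/-- Cauchy-Schwarz in linearised form -/
lemma linearised (v : ℝ → ℝ) (hv : Continuous v) (hv0 : ∀ x, 0 ≤ v x) (n : ℕ) {c d V : ℝ}
    (hc : 0 ≤ c) (hd : 0 < d) (hd1 : d ≤ 1) (hV : ∀ x, v x ≤ V) :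
    2 * c * ((∫ x in (0 : ℝ)..2 * π, v x ^ (n + 1)) - 2 * d * V ^ (n + 1)) -
      c ^ 2 * (∫ x in (0 : ℝ)..2 * π, v x ^ n) ≤ ∫ x in d..2 * π - d, v x ^ (n + 2) := by
  have hpi := Real.pi_gt_three
  have i2 : ∀ g : ℝ → ℝ, Continuous g → (∀ x, 0 ≤ g x) →
      ∫ x in d..2 * π - d, g x ≤ ∫ x in (0 : ℝ)..2 * π, g x := by
    intro g hg hg0
    apply intervalIntegral.integral_mono_interval hd.le (by linarith) (by linarith)
    · exact Filter.Eventually.of_forall hg0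
    · exact hg.intervalIntegrable _ _
  have c0 : Continuous (fun x => v x ^ n) := hv.pow n
  have c1 : Continuous (fun x => v x ^ (n + 1)) := hv.pow _
  have c2 : Continuous (fun x => v x ^ (n + 2)) := hv.pow _
  have h1 : ∫ x in d..2 * π - d, (2 * c * v x ^ (n + 1) - c ^ 2 * v x ^ n) ≤
      ∫ x in d..2 * π - d, v x ^ (n + 2) := by
    apply intervalIntegral.integral_mono_on (by linarith)
      (by apply Continuous.intervalIntegrable; fun_prop)
      (by apply Continuous.intervalIntegrable; fun_prop)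
    intro x _
    have h2 := hv0 x
    have h3 : 0 ≤ v x ^ n * (v x - c) ^ 2 := by positivity
    have h4 : v x ^ (n + 2) - (2 * c * v x ^ (n + 1) - c ^ 2 * v x ^ n) =
      v x ^ n * (v x - c) ^ 2 := by ring
    linarith
  rw [intervalIntegral.integral_sub (by apply Continuous.intervalIntegrable; fun_prop)
      (by apply Continuous.intervalIntegrable; fun_prop),
    intervalIntegral.integral_const_mul, intervalIntegral.integral_const_mul] at h1
  have h2 := i2 _ c0 (fun x => pow_nonneg (hv0 x) n)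
  have h3 : ∫ x in (0 : ℝ)..2 * π, v x ^ (n + 1) =
      (∫ x in (0 : ℝ)..d, v x ^ (n + 1)) + (∫ x in d..2 * π - d, v x ^ (n + 1)) +
        ∫ x in (2 * π - d)..2 * π, v x ^ (n + 1) := by
    rw [intervalIntegral.integral_add_adjacent_intervals (c1.intervalIntegrable _ _)
      (c1.intervalIntegrable _ _),
      intervalIntegral.integral_add_adjacent_intervals (c1.intervalIntegrable _ _)
      (c1.intervalIntegrable _ _)]
  have hVp : ∀ x, v x ^ (n + 1) ≤ V ^ (n + 1) := fun x => pow_le_pow_left₀ (hv0 x) (hV x) _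
  have h4 := ET.int_const_le (fun x => v x ^ (n + 1)) c1 0 d _ hd.le hVp
  have h5 := ET.int_const_le (fun x => v x ^ (n + 1)) c1 (2 * π - d) (2 * π) _ (by linarith) hVp
  have h6 : (∫ x in (0 : ℝ)..2 * π, v x ^ (n + 1)) - 2 * d * V ^ (n + 1) ≤
      ∫ x in d..2 * π - d, v x ^ (n + 1) := by linarith
  have h7 := mul_le_mul_of_nonneg_left h6 (show 0 ≤ 2 * c by positivity)
  have h8 := mul_le_mul_of_nonneg_left h2 (sq_nonneg c)
  linarith

section

variable {a : ℕ → ℝ} (ha : ∀ n, a n = 0 ∨ a n = 1) (hPw : S_POW)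

include ha hPw

lemma pow_vv (k : ℝ) (j : ℕ) (x : ℝ) {y : ℝ} (hy : 0 < y) :
    vv k (Dir a) x y ^ j = pw k y ^ j * ‖Dir (cp a j) (pt x y)‖ ^ 2 := by
  obtain ⟨_, _, _, h4⟩ := hPw a ha j
  rw [vv_eq_norm, ← h4 _ (by rw [pt_re]; exact hy), norm_pow, mul_pow]
  ring

lemma int_pow_vv (k : ℝ) (j : ℕ) {y : ℝ} (hy : 0 < y) :
    ∫ x in (0 : ℝ)..2 * π, vv k (Dir a) x y ^ j = 2 * π * (pw k y ^ j * En a j (2 * y)) := by
  obtain ⟨_, h2, _, _⟩ := hPw a ha j
  simp_rw [pow_vv ha hPw k j _ hy]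
  rw [intervalIntegral.integral_const_mul, integral_norm_Dir h2 hy]
  unfold En
  ring

lemma vv_le {h : ℕ} (hh : h ≠ 0) {C : ℝ} (hC : ∀ j, cp a h j ≤ C) (hC1 : 1 ≤ C) {z : ℝ}
    (hz : 0 < z) (hz1 : z ≤ 1) (x : ℝ) :
    vv (1 / h) (Dir a) x (z ^ (4 * h)) ≤ 4 * C ^ 2 / z ^ 4 := by
  set y := z ^ (4 * h) with hy
  have hy0 : 0 < y := by positivity
  have hy1 : y ≤ 1 := pow_le_one₀ hz.le hz1
  have h1 : ‖Dir a (pt x y)‖ ≤ Fr a y := by
    have h := norm_Dir_le (adm_a ha) (s := pt x y) (by rw [pt_re]; exact hy0)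
    rw [pt_re] at h
    have e : ∑' n : ℕ, |a n| * exp (-(y * n)) = Fr a y := by
      unfold Fr
      exact tsum_congr fun n => by rw [abs_of_nonneg (a_nonneg ha n)]
    rw [e] at h
    exact h
  have h2 := Fr_pow_le ha hPw hC hy0
  have h3 : C * ((1 + y) / y) ≤ 2 * C / y := by
    rw [← mul_div_assoc]
    apply div_le_div_of_nonneg_right _ hy0.le
    nlinarith
  have hF0 := Fr_nonneg ha y
  have hp := pw_pos (k := 1 / h) hy0
  have h4 : vv (1 / h) (Dir a) x y ≤ pw (1 / h) y * Fr a y ^ 2 := by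
    rw [vv_eq_norm]; gcongr
  refine h4.trans ?_
  have h5 : (pw (1 / h) y * Fr a y ^ 2) ^ h ≤ (4 * C ^ 2 / z ^ 4) ^ h := by
    rw [mul_pow, pw_pow hh hy0.le]
    calc y * (Fr a y ^ 2) ^ h = y * (Fr a y ^ h) ^ 2 := by ring
      _ ≤ y * (2 * C / y) ^ 2 := by gcongr; exact h2.trans h3
      _ = 4 * C ^ 2 / y := by field_simp; ring
      _ = 4 * C ^ 2 / (z ^ 4) ^ h := by rw [hy, pow_mul]
      _ ≤ (4 * C ^ 2) ^ h / (z ^ 4) ^ h := by
        gcongr
        exact le_self_pow₀ (by nlinarith) hh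
      _ = _ := by rw [div_pow]
  exact le_of_pow_le_pow_left₀ hh (by positivity) h5

end

end Pool.Agent.Helper65.EV
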